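import Mathlib

set_option linter.unusedSectionVars false

open Set Filter Topology MeasureTheory ProbabilityTheory
open scoped ENNReal NNReal

namespace Pool.Agent.Results.MP_722786_an.SmoothedCondition

/-- `C` is a closed convex cone in `ℝ^k` (it contains `0`). -/
structure IsClosedConvexCone {k : Type} (C : Set (k → ℝ)) : Prop where
  /-- `C` is closed. -/
  isClosed : IsClosed C
  /-- `C` is convex. -/
  convex : Convex ℝ C
  /-- `0 ∈ C`. -/
  zero_mem : 0 ∈ C
  /-- `C` is stable under multiplication by nonnegative reals. -/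
  smul_mem : ∀ t : ℝ, 0 ≤ t → ∀ x ∈ C, t • x ∈ C

/-- The dual cone `C^* = {u : uᵀ v ≥ 0 for all v ∈ C}`. -/
def dualCone {k : ℕ} (C : Set (Fin k → ℝ)) : Set (Fin k → ℝ) :=
  {u | ∀ v ∈ C, 0 ≤ ∑ i, u i * v i}

/-- The positions of the `mn + m + n` entries of `(A, b, c)`. -/
abbrev Idx (m n : ℕ) : Type := (Fin m × Fin n) ⊕ (Fin m ⊕ Fin n)

/-- The data `(A, b, c)`, `A ∈ ℝ^{m × n}`, `b ∈ ℝ^m`, `c ∈ ℝ^n`, as the family of all entries. -/
abbrev Data (m n : ℕ) : Type := Idx m n → ℝ

namespace Data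

variable {m n : ℕ}

/-- The matrix `A`. -/
def A (d : Data m n) (i : Fin m) (j : Fin n) : ℝ := d (Sum.inl (i, j))

/-- The vector `b`. -/
def b (d : Data m n) (i : Fin m) : ℝ := d (Sum.inr (Sum.inl i))

/-- The vector `c`. -/
def c (d : Data m n) (j : Fin n) : ℝ := d (Sum.inr (Sum.inr j))

end Data

/-- `‖A, b, c‖_F`: the Frobenius norm of all entries of `(A, b, c)` taken together. -/
noncomputable def frob {m n : ℕ} (d : Data m n) : ℝ := √(∑ k, d k ^ 2)

section

variable {m n : ℕ} (C₁ : Set (Fin m → ℝ)) (C₂ : Set (Fin n → ℝ))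

/-- The primal program `(P)` is feasible: there is `x ∈ C₂` with `A x - b ∈ C₁`. -/
def PrimalFeasible (d : Data m n) : Prop :=
  ∃ x ∈ C₂, (fun i => ∑ j, d.A i j * x j - d.b i) ∈ C₁

/-- The dual program `(D)` is feasible: there is `y ∈ C₁^*` with `c - Aᵀ y ∈ C₂^*`. -/
def DualFeasible (d : Data m n) : Prop :=
  ∃ y ∈ dualCone C₁, (fun j => d.c j - ∑ i, d.A i j * y i) ∈ dualCone C₂

/-- Every perturbation of `(A, b, c)` of Frobenius norm at most `δ` leaves the feasibility status
of `(P)` and the feasibility status of `(D)` unchanged. -/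
def Stable (d : Data m n) (δ : ℝ) : Prop :=
  ∀ e : Data m n, frob e ≤ δ →
    (PrimalFeasible C₁ C₂ (d + e) ↔ PrimalFeasible C₁ C₂ d) ∧
      (DualFeasible C₁ C₂ (d + e) ↔ DualFeasible C₁ C₂ d)

/-- The distance to ill-posedness `ρ(A, b, c) ∈ [0, ∞]`: the supremum of all `δ ≥ 0` for which
`Stable` holds. -/
noncomputable def rho (d : Data m n) : ℝ≥0∞ :=
  ⨆ (δ : ℝ≥0) (_ : Stable C₁ C₂ d δ), (δ : ℝ≥0∞)

open Classical in
/-- The condition number `C(A, b, c) = ‖A, b, c‖_F / ρ(A, b, c) ∈ [0, ∞]`, which is `+∞` when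
`ρ = 0` (and `0` when `ρ = ∞`). -/
noncomputable def condNumber (d : Data m n) : ℝ≥0∞ :=
  if rho C₁ C₂ d = 0 then ⊤ else ENNReal.ofReal (frob d) / rho C₁ C₂ d

end

/-- The law of the `σ`-Gaussian perturbation of the vector `m`: the entries are independent, the
entry `k` is normal with mean `m k` and variance `σ²`. -/
noncomputable def law {ι : Type} [Fintype ι] (m : ι → ℝ) (σ : ℝ) : Measure (ι → ℝ) :=
  Measure.pi fun k => gaussianReal (m k) (Real.toNNReal (σ ^ 2))

/-- The expectation of an extended real valued function: integral of the positive part minus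
integral of the negative part. -/
noncomputable def expectation {Ω : Type} [MeasurableSpace Ω] (P : Measure Ω) (X : Ω → EReal) :
    EReal :=
  ((∫⁻ ω, (X ω).toENNReal ∂P : ℝ≥0∞) : EReal) - ((∫⁻ ω, (-X ω).toENNReal ∂P : ℝ≥0∞) : EReal)

lemma gaussian_le_volume (μ : ℝ) {σ : ℝ} (hσ : 0 < σ) (s : Set ℝ) :
    gaussianReal μ ⟨σ ^ 2, sq_nonneg σ⟩ s ≤ ENNReal.ofReal (1 / σ) * volume s := by
  have hv : (⟨σ ^ 2, sq_nonneg σ⟩ : ℝ≥0) ≠ 0 := by
    intro h
    have h1 : σ ^ 2 = 0 := congrArg NNReal.toReal h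
    have h2 : 0 < σ ^ 2 := by positivity
    linarith
  rw [gaussianReal_apply _ hv]
  calc ∫⁻ x in s, gaussianPDF μ ⟨σ ^ 2, sq_nonneg σ⟩ x
      ≤ ∫⁻ _ in s, ENNReal.ofReal (1 / σ) := by
        apply lintegral_mono
        intro x
        unfold gaussianPDF gaussianPDFReal
        apply ENNReal.ofReal_le_ofReal
        have h1 : Real.exp (-(x - μ) ^ 2 / (2 * (⟨σ ^ 2, sq_nonneg σ⟩ : ℝ≥0))) ≤ 1 := by
          apply Real.exp_le_one_iff.2
          apply div_nonpos_of_nonpos_of_nonneg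
          · nlinarith [sq_nonneg (x - μ)]
          · positivity
        have h2 : σ ≤ √(2 * Real.pi * ((⟨σ ^ 2, sq_nonneg σ⟩ : ℝ≥0) : ℝ)) := by
          apply Real.le_sqrt_of_sq_le
          have := Real.pi_gt_three
          change σ ^ 2 ≤ 2 * Real.pi * σ ^ 2
          nlinarith [sq_nonneg σ]
        calc (√(2 * Real.pi * ((⟨σ ^ 2, sq_nonneg σ⟩ : ℝ≥0) : ℝ)))⁻¹ *
              Real.exp (-(x - μ) ^ 2 / (2 * (⟨σ ^ 2, sq_nonneg σ⟩ : ℝ≥0)))
            ≤ σ⁻¹ * 1 := by gcongr
          _ = 1 / σ := by ring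
    _ = ENNReal.ofReal (1 / σ) * volume s := by
        rw [lintegral_const]
        simp

lemma slice_1d (μ : ℝ) {σ : ℝ} (hσ : 0 < σ) {I : Set ℝ} (hI : Convex ℝ I) {h : ℝ} (hh : h ≠ 0) :
    gaussianReal μ ⟨σ ^ 2, sq_nonneg σ⟩ {t | t ∈ I ∧ t + h ∉ I} ≤ ENNReal.ofReal (|h| / σ) := by
  refine (gaussian_le_volume μ hσ _).trans ?_
  have h1 : volume {t | t ∈ I ∧ t + h ∉ I} ≤ ENNReal.ofReal |h| := by
    refine (Real.volume_le_diam _).trans ?_
    apply Metric.ediam_le
    intro x hx y hy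
    rw [edist_dist]
    apply ENNReal.ofReal_le_ofReal
    rw [Real.dist_eq]
    by_contra hcon
    push Not at hcon
    have hord := hI.ordConnected
    rcases lt_or_gt_of_ne hh with hneg | hpos
    · -- h < 0
      rw [abs_of_neg hneg] at hcon
      rcases le_total x y with hxy | hxy
      · rw [abs_sub_comm, abs_of_nonneg (by linarith)] at hcon
        exact hy.2 (hord.out hx.1 hy.1 ⟨by linarith, by linarith⟩)
      · rw [abs_of_nonneg (by linarith)] at hcon
        exact hx.2 (hord.out hy.1 hx.1 ⟨by linarith, by linarith⟩)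
    · rw [abs_of_pos hpos] at hcon
      rcases le_total x y with hxy | hxy
      · rw [abs_sub_comm, abs_of_nonneg (by linarith)] at hcon
        exact hx.2 (hord.out hx.1 hy.1 ⟨by linarith, by linarith⟩)
      · rw [abs_of_nonneg (by linarith)] at hcon
        exact hy.2 (hord.out hy.1 hx.1 ⟨by linarith, by linarith⟩)
  calc ENNReal.ofReal (1 / σ) * volume {t | t ∈ I ∧ t + h ∉ I}
      ≤ ENNReal.ofReal (1 / σ) * ENNReal.ofReal |h| := by gcongr
    _ = ENNReal.ofReal (|h| / σ) := by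
        rw [← ENNReal.ofReal_mul (by positivity)]
        congr 1
        ring

instance {ι : Type} [Fintype ι] (m : ι → ℝ) (σ : ℝ) : IsProbabilityMeasure (law m σ) := by
  unfold law
  infer_instance

lemma slice {ι : Type} [Fintype ι] [DecidableEq ι] (m : ι → ℝ) {σ : ℝ} (hσ : 0 < σ)
    {G : Set (ι → ℝ)} (hG : MeasurableSet G) (k : ι)
    (hconv : ∀ d : ι → ℝ, Convex ℝ {t : ℝ | Function.update d k t ∈ G}) {h : ℝ} (hh : h ≠ 0) :
    law m σ {d | d ∈ G ∧ Function.update d k (d k + h) ∉ G} ≤ ENNReal.ofReal (|h| / σ) := by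
  set E : Set (ι → ℝ) := {d | d ∈ G ∧ Function.update d k (d k + h) ∉ G} with hE
  have hmeas : Measurable fun d : ι → ℝ => Function.update d k (d k + h) := by
    rw [measurable_pi_iff]
    intro j
    by_cases hj : j = k
    · subst hj
      simp only [Function.update_self]
      fun_prop
    · simp only [Function.update_of_ne hj]
      fun_prop
  have hEm : MeasurableSet E := hG.inter (hmeas hG).compl
  rw [← lintegral_indicator_one hEm]
  unfold law
  rw [Real.toNNReal_of_nonneg (sq_nonneg σ)]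
  set μ : ι → Measure ℝ := fun k => gaussianReal (m k) ⟨σ ^ 2, sq_nonneg σ⟩ with hμ
  calc ∫⁻ d, E.indicator 1 d ∂Measure.pi μ
      ≤ ∫⁻ d, (fun _ => ENNReal.ofReal (|h| / σ)) d ∂Measure.pi μ := by
        apply lintegral_le_of_lmarginal_le {k}
        · exact measurable_one.indicator hEm
        · exact measurable_const
        · intro d
          rw [lmarginal_singleton, lmarginal_singleton]
          simp only [lintegral_const, measure_univ, mul_one]
          set I : Set ℝ := {t | Function.update d k t ∈ G} with hI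
          have hIm : MeasurableSet I := (measurable_update d) hG
          have hI2 : MeasurableSet {t : ℝ | t ∈ I ∧ t + h ∉ I} :=
            hIm.inter ((measurable_add_const h) hIm).compl
          have : (fun t => E.indicator (1 : (ι → ℝ) → ℝ≥0∞) (Function.update d k t)) =
              {t : ℝ | t ∈ I ∧ t + h ∉ I}.indicator 1 := by
            funext t
            by_cases ht : t ∈ {t : ℝ | t ∈ I ∧ t + h ∉ I}
            · rw [indicator_of_mem ht, indicator_of_mem]
              · rfl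
              · refine ⟨ht.1, ?_⟩
                rw [Function.update_self, Function.update_idem]
                exact ht.2
            · rw [indicator_of_notMem ht, indicator_of_notMem]
              intro hcon
              apply ht
              refine ⟨hcon.1, ?_⟩
              have := hcon.2
              rw [Function.update_self, Function.update_idem] at this
              exact this
          rw [this, lintegral_indicator_one hI2]
          exact slice_1d (m k) hσ (hconv d) hh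
    _ = ENNReal.ofReal (|h| / σ) := by simp


lemma weak_sep {M : Type} [Fintype M] [DecidableEq M] {K : Set (M → ℝ)} (hK : Convex ℝ K)
    (hne : K.Nonempty) {b : M → ℝ} (hb : b ∉ K) :
    ∃ y : M → ℝ, ‖y‖ = 1 ∧ ∀ k ∈ K, ∑ i, y i * k i ≤ ∑ i, y i * b i := by
  have hcomp : IsCompact (Metric.sphere (0 : M → ℝ) 1) := isCompact_sphere _ _
  have hcont : ∀ v : M → ℝ, Continuous fun y : M → ℝ => ∑ i, y i * v i := fun v => by fun_prop
  obtain ⟨k₀, hk₀⟩ := hne
  have key := hcomp.inter_iInter_nonempty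
    (fun k : K => {y : M → ℝ | ∑ i, y i * (k : M → ℝ) i ≤ ∑ i, y i * b i})
    (fun k => isClosed_le (hcont _) (hcont _)) (by
      intro u
      classical
      set F : Set (M → ℝ) := insert k₀ ((fun k : K => (k : M → ℝ)) '' (u : Set K)) with hF
      have hFfin : F.Finite := (u.finite_toSet.image _).insert _
      have hFK : F ⊆ K := by
        rintro x (rfl | ⟨k, _, rfl⟩)
        · exact hk₀
        · exact k.2
      have hhull : convexHull ℝ F ⊆ K := convexHull_min hFK hK
      have hcl : IsClosed (convexHull ℝ F) := (hFfin.isCompact_convexHull ℝ).isClosed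
      obtain ⟨f, u', hfb, hfk⟩ := geometric_hahn_banach_point_closed (convex_convexHull ℝ F) hcl
        (fun h => hb (hhull h))
      -- coordinates of `-f`
      set y : M → ℝ := fun i => -f (Pi.single i 1) with hy
      have hfy : ∀ v : M → ℝ, ∑ i, y i * v i = -f v := by
        intro v
        have h1 : v = ∑ i, v i • (Pi.single i (1:ℝ) : M → ℝ) := by
          funext j
          simp [Finset.sum_apply, Pi.single_apply]
        conv_rhs => rw [h1]
        rw [map_sum, ← Finset.sum_neg_distrib]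
        apply Finset.sum_congr rfl
        intro i _
        rw [map_smul, smul_eq_mul, hy]
        ring
      have hyne : y ≠ 0 := by
        intro h0
        have h1 := hfy b
        have h2 := hfy k₀
        rw [h0] at h1 h2
        simp only [Pi.zero_apply, zero_mul, Finset.sum_const_zero] at h1 h2
        have h3 := hfk k₀ (subset_convexHull ℝ F (mem_insert _ _))
        linarith
      have hynorm : 0 < ‖y‖ := norm_pos_iff.2 hyne
      refine ⟨‖y‖⁻¹ • y, ?_, ?_⟩
      · rw [mem_sphere_zero_iff_norm, norm_smul, norm_inv, norm_norm, inv_mul_cancel₀ hynorm.ne']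
      · refine mem_iInter₂.2 fun k hk => ?_
        change ∑ i, (‖y‖⁻¹ • y) i * (k : M → ℝ) i ≤ ∑ i, (‖y‖⁻¹ • y) i * b i
        have h1 : ∀ v : M → ℝ, ∑ i, (‖y‖⁻¹ • y) i * v i = ‖y‖⁻¹ * ∑ i, y i * v i := by
          intro v
          rw [Finset.mul_sum]
          apply Finset.sum_congr rfl
          intro i _
          rw [Pi.smul_apply, smul_eq_mul]
          ring
        rw [h1, h1, hfy, hfy]
        have h3 := hfk k (subset_convexHull ℝ F (mem_insert_of_mem _ ⟨k, hk, rfl⟩))
        have h4 : 0 ≤ ‖y‖⁻¹ := by positivity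
        exact mul_le_mul_of_nonneg_left (by linarith) h4)
  obtain ⟨y, hy1, hy2⟩ := key
  refine ⟨y, by simpa using hy1, fun k hk => ?_⟩
  exact (mem_iInter.1 hy2 ⟨k, hk⟩)

lemma IsClosedConvexCone.add_mem {k : Type} {C : Set (k → ℝ)} (h : IsClosedConvexCone C)
    {x y : k → ℝ} (hx : x ∈ C) (hy : y ∈ C) : x + y ∈ C := by
  have h1 := h.convex hx hy (by norm_num : (0:ℝ) ≤ 1 / 2) (by norm_num : (0:ℝ) ≤ 1 / 2)
    (by norm_num)
  have h2 := h.smul_mem 2 (by norm_num) _ h1
  have : (2:ℝ) • ((1 / 2 : ℝ) • x + (1 / 2 : ℝ) • y) = x + y := by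
    rw [smul_add, smul_smul, smul_smul]
    norm_num
  rwa [this] at h2

section abstract

variable {ι M N : Type} [Fintype M] [Fintype N] (e : M → Option N → ι)

/-- the extended matrix times a vector -/
def mulv (d : ι → ℝ) (x : Option N → ℝ) : M → ℝ := fun i => ∑ j, d (e i j) * x j

/-- feasibility of `B x - β ∈ T`, `x ∈ C`. -/
def Feas (C : Set (N → ℝ)) (T : Set (M → ℝ)) (d : ι → ℝ) : Prop :=
  ∃ x ∈ C, (fun i => ∑ j, d (e i (some j)) * x j - d (e i none)) ∈ T

/-- the extended cone -/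
def ext (C : Set (N → ℝ)) : Set (Option N → ℝ) := {x | (fun j => x (some j)) ∈ C ∧ x none ≤ 0}

lemma ext_isClosed {C : Set (N → ℝ)} (hC : IsClosedConvexCone C) : IsClosed (ext C) := by
  apply IsClosed.inter
  · exact hC.isClosed.preimage (by fun_prop : Continuous fun x : Option N → ℝ => fun j => x (some j))
  · exact isClosed_le (continuous_apply none) continuous_const

lemma ext_convex {C : Set (N → ℝ)} (hC : IsClosedConvexCone C) : Convex ℝ (ext C) := by
  intro x hx y hy a b ha hb hab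
  refine ⟨hC.convex hx.1 hy.1 ha hb hab, ?_⟩
  have h1 := hx.2
  have h2 := hy.2
  change a * x none + b * y none ≤ 0
  nlinarith

lemma ext_smul {C : Set (N → ℝ)} (hC : IsClosedConvexCone C) {t : ℝ} (ht : 0 ≤ t)
    {x : Option N → ℝ} (hx : x ∈ ext C) : t • x ∈ ext C := by
  refine ⟨hC.smul_mem t ht _ hx.1, ?_⟩
  have h1 := hx.2
  change t * x none ≤ 0
  nlinarith

/-- near feasibility witnessed by a vector with `j`-th coordinate `ς`. -/
def G (C : Set (N → ℝ)) (T : Set (M → ℝ)) (j : Option N) (ς s : ℝ) : Set (ι → ℝ) :=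
  {d | ∃ x ∈ ext C, ‖x‖ ≤ 1 ∧ x j = ς ∧ Metric.infDist (mulv e d x) T ≤ s}

lemma mulv_continuous : Continuous fun p : (ι → ℝ) × (Option N → ℝ) => mulv e p.1 p.2 := by
  unfold mulv
  fun_prop

lemma G_isClosed {C : Set (N → ℝ)} (hC : IsClosedConvexCone C) (T : Set (M → ℝ))
    (j : Option N) (ς s : ℝ) : IsClosed (G e C T j ς s) := by
  set X : Set (Option N → ℝ) := {x | x ∈ ext C ∧ ‖x‖ ≤ 1 ∧ x j = ς} with hX
  have hXc : IsCompact X := by
    have h1 : IsClosed X := by
      refine (ext_isClosed hC).inter (IsClosed.inter ?_ ?_)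
      · exact isClosed_le continuous_norm continuous_const
      · exact isClosed_eq (continuous_apply j) continuous_const
    refine (isCompact_closedBall (0 : Option N → ℝ) 1).of_isClosed_subset h1 ?_
    intro x hx
    rw [mem_closedBall_zero_iff]
    exact hx.2.1
  have : CompactSpace X := isCompact_iff_compactSpace.1 hXc
  have hS : IsClosed {p : (ι → ℝ) × X | Metric.infDist (mulv e p.1 (p.2 : Option N → ℝ)) T ≤ s} := by
    refine isClosed_le ?_ continuous_const
    have hg : Continuous fun p : (ι → ℝ) × X => (p.1, (p.2 : Option N → ℝ)) :=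
      continuous_fst.prodMk (continuous_subtype_val.comp continuous_snd)
    exact (Metric.continuous_infDist_pt T).comp ((mulv_continuous e).comp hg)
  have h2 := isClosedMap_fst_of_compactSpace _ hS
  convert h2 using 1
  ext d
  constructor
  · rintro ⟨x, hx1, hx2, hx3, hx4⟩
    exact ⟨(d, ⟨x, hx1, hx2, hx3⟩), hx4, rfl⟩
  · rintro ⟨⟨d', x⟩, hx, rfl⟩
    exact ⟨x, x.2.1, x.2.2.1, x.2.2.2, hx⟩

variable [DecidableEq ι] [DecidableEq M]

lemma mulv_update (he : ∀ i j i' j', e i j = e i' j' → i = i' ∧ j = j') (d : ι → ℝ) (i : M)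
    (j : Option N) (t : ℝ) (x : Option N → ℝ) :
    mulv e (Function.update d (e i j) t) x = mulv e d x + Pi.single i ((t - d (e i j)) * x j) := by
  classical
  funext i'
  unfold mulv
  rw [Pi.add_apply]
  by_cases hi : i' = i
  · subst hi
    rw [Pi.single_eq_same]
    have h1 : ∀ j', Function.update d (e i' j) t (e i' j') * x j' =
        d (e i' j') * x j' + if j' = j then (t - d (e i' j)) * x j else 0 := by
      intro j'
      by_cases hj : j' = j
      · subst hj
        rw [Function.update_self, if_pos rfl]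
        ring
      · rw [Function.update_of_ne (fun h => hj (he _ _ _ _ h).2), if_neg hj, add_zero]
    rw [Finset.sum_congr rfl fun j' _ => h1 j', Finset.sum_add_distrib]
    simp
  · rw [Pi.single_eq_of_ne hi, add_zero]
    apply Finset.sum_congr rfl
    intro j' _
    rw [Function.update_of_ne (fun h => hi (he _ _ _ _ h).1)]

omit [DecidableEq ι] [DecidableEq M] in
lemma mulv_comb (d : ι → ℝ) (x y : Option N → ℝ) (a b : ℝ) :
    mulv e d (a • x + b • y) = a • mulv e d x + b • mulv e d y := by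
  funext i
  simp only [mulv, Pi.add_apply, Pi.smul_apply, smul_eq_mul, Finset.mul_sum]
  rw [← Finset.sum_add_distrib]
  apply Finset.sum_congr rfl
  intro j _
  ring

lemma G_convex (he : ∀ i j i' j', e i j = e i' j' → i = i' ∧ j = j') {C : Set (N → ℝ)}
    (hC : IsClosedConvexCone C) {T : Set (M → ℝ)} (hT : IsClosedConvexCone T) (d : ι → ℝ) (i : M)
    (j : Option N) (ς s : ℝ) :
    Convex ℝ {t : ℝ | Function.update d (e i j) t ∈ G e C T j ς s} := by
  rintro t₁ ⟨x₁, hx₁, hn₁, hj₁, hd₁⟩ t₂ ⟨x₂, hx₂, hn₂, hj₂, hd₂⟩ a b ha hb hab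
  have hTne : T.Nonempty := ⟨0, hT.zero_mem⟩
  obtain ⟨q₁, hq₁, hdq₁⟩ := hT.isClosed.exists_infDist_eq_dist hTne
    (mulv e (Function.update d (e i j) t₁) x₁)
  obtain ⟨q₂, hq₂, hdq₂⟩ := hT.isClosed.exists_infDist_eq_dist hTne
    (mulv e (Function.update d (e i j) t₂) x₂)
  refine ⟨a • x₁ + b • x₂, ext_convex hC hx₁ hx₂ ha hb hab, ?_, ?_, ?_⟩
  · calc ‖a • x₁ + b • x₂‖ ≤ ‖a • x₁‖ + ‖b • x₂‖ := norm_add_le _ _
      _ = a * ‖x₁‖ + b * ‖x₂‖ := by
          rw [norm_smul, norm_smul, Real.norm_of_nonneg ha, Real.norm_of_nonneg hb]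
      _ ≤ a * 1 + b * 1 := by gcongr
      _ = 1 := by linarith
  · change a * x₁ j + b * x₂ j = ς
    rw [hj₁, hj₂, ← add_mul, hab, one_mul]
  · have hkey : mulv e (Function.update d (e i j) (a • t₁ + b • t₂)) (a • x₁ + b • x₂) =
        a • mulv e (Function.update d (e i j) t₁) x₁ + b • mulv e (Function.update d (e i j) t₂) x₂ := by
      rw [mulv_update e he, mulv_update e he, mulv_update e he, mulv_comb]
      have h1 : (a • x₁ + b • x₂) j = ς := by
        change a * x₁ j + b * x₂ j = ς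
        rw [hj₁, hj₂, ← add_mul, hab, one_mul]
      rw [h1, hj₁, hj₂, smul_add, smul_add, ← Pi.single_smul, ← Pi.single_smul]
      have h2 : (a • t₁ + b • t₂ - d (e i j)) * ς =
          a • ((t₁ - d (e i j)) * ς) + b • ((t₂ - d (e i j)) * ς) := by
        simp only [smul_eq_mul]
        have : b = 1 - a := by linarith
        rw [this]
        ring
      rw [h2, Pi.single_add]
      abel
    rw [hkey]
    calc Metric.infDist _ T ≤ dist _ (a • q₁ + b • q₂) :=
          Metric.infDist_le_dist_of_mem (hT.convex hq₁ hq₂ ha hb hab)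
      _ ≤ a * dist (mulv e (Function.update d (e i j) t₁) x₁) q₁ +
            b * dist (mulv e (Function.update d (e i j) t₂) x₂) q₂ := by
          rw [dist_eq_norm, dist_eq_norm, dist_eq_norm, add_sub_add_comm, ← smul_sub, ← smul_sub]
          refine (norm_add_le _ _).trans ?_
          rw [norm_smul, norm_smul, Real.norm_of_nonneg ha, Real.norm_of_nonneg hb]
      _ ≤ a * s + b * s := by
          rw [← hdq₁, ← hdq₂]
          gcongr
      _ = s := by rw [← add_mul, hab, one_mul]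

omit [DecidableEq ι] [DecidableEq M] in
lemma mulv_dist {d d' : ι → ℝ} {ε : ℝ} (hd : ∀ k, |d k - d' k| ≤ ε) (x : Option N → ℝ) (i : M) :
    |mulv e d x i - mulv e d' x i| ≤ Fintype.card (Option N) * ε * ‖x‖ := by
  unfold mulv
  rw [← Finset.sum_sub_distrib]
  calc |∑ j, (d (e i j) * x j - d' (e i j) * x j)| ≤ ∑ j, |d (e i j) * x j - d' (e i j) * x j| :=
        Finset.abs_sum_le_sum_abs _ _
    _ ≤ ∑ _j : Option N, ε * ‖x‖ := by
        apply Finset.sum_le_sum
        intro j _
        rw [← sub_mul, abs_mul]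
        have h1 : |x j| ≤ ‖x‖ := norm_le_pi_norm x j
        have h2 := hd (e i j)
        have h3 := abs_nonneg (d (e i j) - d' (e i j))
        gcongr
        exact h3.trans h2
    _ = Fintype.card (Option N) * ε * ‖x‖ := by
        rw [Finset.sum_const, nsmul_eq_mul, Finset.card_univ]
        ring

omit [DecidableEq ι] [DecidableEq M] in
lemma exists_coord {k : Type} [Fintype k] {x : k → ℝ} (hx : ‖x‖ = 1) : ∃ j, |x j| = 1 := by
  by_contra hcon
  push Not at hcon
  have : ‖x‖ < 1 := by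
    rw [pi_norm_lt_iff one_pos]
    intro j
    exact lt_of_le_of_ne ((norm_le_pi_norm x j).trans hx.le) (hcon j)
  linarith

omit [DecidableEq ι] [DecidableEq M] in
lemma near_feas {C : Set (N → ℝ)} (hC : IsClosedConvexCone C) {T : Set (M → ℝ)}
    (hT : IsClosedConvexCone T) {d d' : ι → ℝ} {ε : ℝ} (hε : 0 ≤ ε)
    (hd : ∀ k, |d k - d' k| ≤ ε) (hf : Feas e C T d') :
    ∃ j, ∃ ς ∈ ({1, -1} : Finset ℝ), d ∈ G e C T j ς (Fintype.card (Option N) * ε) := by
  obtain ⟨x, hx, hxT⟩ := hf
  set z : Option N → ℝ := fun j => j.elim (-1) x with hz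
  have hzext : z ∈ ext C := ⟨hx, by simp [hz]⟩
  have hzT : mulv e d' z ∈ T := by
    convert hxT using 1
    funext i
    unfold mulv
    rw [Fintype.sum_option]
    simp only [hz, Option.elim]
    ring
  have hznorm : 0 < ‖z‖ := by
    rw [norm_pos_iff]
    intro h0
    have := congrFun h0 none
    simp [hz] at this
  set w : Option N → ℝ := ‖z‖⁻¹ • z with hw
  have hwnorm : ‖w‖ = 1 := by
    rw [hw, norm_smul, norm_inv, norm_norm, inv_mul_cancel₀ hznorm.ne']
  have hwext : w ∈ ext C := ext_smul hC (by positivity) hzext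
  have hwT : mulv e d' w ∈ T := by
    have h1 := hT.smul_mem ‖z‖⁻¹ (by positivity) _ hzT
    have h2 : mulv e d' w = ‖z‖⁻¹ • mulv e d' z := by
      have := mulv_comb e d' z 0 ‖z‖⁻¹ 0
      simpa using this
    rwa [h2]
  obtain ⟨j, hj⟩ := exists_coord hwnorm
  refine ⟨j, w j, ?_, w, hwext, hwnorm.le, rfl, ?_⟩
  · rcases abs_eq (zero_le_one' ℝ) |>.1 hj with h | h <;> simp [h]
  · refine (Metric.infDist_le_dist_of_mem hwT).trans ?_
    rw [dist_pi_le_iff (by positivity)]
    intro i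
    rw [Real.dist_eq]
    have := mulv_dist e hd w i
    rwa [hwnorm, mul_one] at this

omit [DecidableEq ι] in
lemma near_infeas {C : Set (N → ℝ)} (hC : IsClosedConvexCone C) {T : Set (M → ℝ)}
    (hT : IsClosedConvexCone T) {d d' : ι → ℝ} {ε : ℝ}
    (hd : ∀ k, |d k - d' k| ≤ ε) (hf : ¬ Feas e C T d') :
    ∃ y : M → ℝ, ‖y‖ = 1 ∧ (∀ q ∈ T, 0 ≤ ∑ i, y i * q i) ∧
      ∀ x ∈ ext C, ∑ i, y i * mulv e d x i ≤
        Fintype.card M * Fintype.card (Option N) * ε * ‖x‖ := by
  -- the cone of attainable right hand sides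
  set K : Set (M → ℝ) := {v | ∃ x ∈ C, (fun i => ∑ j, d' (e i (some j)) * x j) - v ∈ T} with hK
  have hKconv : Convex ℝ K := by
    rintro v₁ ⟨x₁, hx₁, h₁⟩ v₂ ⟨x₂, hx₂, h₂⟩ a b ha hb hab
    refine ⟨a • x₁ + b • x₂, hC.convex hx₁ hx₂ ha hb hab, ?_⟩
    have h3 := hT.convex h₁ h₂ ha hb hab
    convert h3 using 1
    funext i
    simp only [Pi.sub_apply, Pi.add_apply, Pi.smul_apply, smul_eq_mul, mul_sub, Finset.mul_sum]
    have h4 : ∑ j, d' (e i (some j)) * (a * x₁ j + b * x₂ j) =
        ∑ j, a * (d' (e i (some j)) * x₁ j) + ∑ j, b * (d' (e i (some j)) * x₂ j) := by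
      rw [← Finset.sum_add_distrib]
      apply Finset.sum_congr rfl
      intro j _
      ring
    rw [h4]
    ring
  have hK0 : (0 : M → ℝ) ∈ K := by
    refine ⟨0, hC.zero_mem, ?_⟩
    have : (fun i => ∑ j, d' (e i (some j)) * (0 : N → ℝ) j) - 0 = (0 : M → ℝ) := by
      funext i
      simp
    rw [this]
    exact hT.zero_mem
  have hKsmul : ∀ t : ℝ, 0 ≤ t → ∀ v ∈ K, t • v ∈ K := by
    rintro t ht v ⟨x, hx, h⟩
    refine ⟨t • x, hC.smul_mem t ht x hx, ?_⟩
    have h3 := hT.smul_mem t ht _ h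
    convert h3 using 1
    funext i
    simp only [Pi.sub_apply, Pi.smul_apply, smul_eq_mul, mul_sub, Finset.mul_sum]
    congr 1
    apply Finset.sum_congr rfl
    intro j _
    ring
  have hbK : (fun i => d' (e i none)) ∉ K := by
    rintro ⟨x, hx, h⟩
    exact hf ⟨x, hx, h⟩
  obtain ⟨y, hy1, hy2⟩ := weak_sep hKconv ⟨0, hK0⟩ hbK
  -- homogeneity
  have hb0 : 0 ≤ ∑ i, y i * d' (e i none) := by
    have := hy2 0 hK0
    simpa using this
  have hK' : ∀ v ∈ K, ∑ i, y i * v i ≤ 0 := by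
    intro v hv
    by_contra hpos
    push Not at hpos
    set c := ∑ i, y i * v i with hc
    set β := ∑ i, y i * d' (e i none) with hβ
    have h1 := hy2 (((β + 1) / c) • v) (hKsmul _ (by positivity) v hv)
    have h2 : ∑ i, y i * (((β + 1) / c) • v) i = β + 1 := by
      have : ∀ i, y i * (((β + 1) / c) • v) i = (β + 1) / c * (y i * v i) := by
        intro i
        rw [Pi.smul_apply, smul_eq_mul]
        ring
      rw [Finset.sum_congr rfl fun i _ => this i, ← Finset.mul_sum, ← hc]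
      field_simp
    rw [h2] at h1
    linarith
  refine ⟨y, hy1, ?_, ?_⟩
  · intro q hq
    have : -q ∈ K := by
      refine ⟨0, hC.zero_mem, ?_⟩
      have h0 : (fun i => ∑ j, d' (e i (some j)) * (0 : N → ℝ) j) - -q = q := by
        funext i
        simp
      rw [h0]
      exact hq
    have h1 := hK' _ this
    simp only [Pi.neg_apply, mul_neg, Finset.sum_neg_distrib] at h1
    linarith
  · intro x hx
    -- first for `d'`
    have h1 : ∑ i, y i * mulv e d' x i ≤ 0 := by
      have hmem : (fun i => ∑ j, d' (e i (some j)) * x (some j)) ∈ K := by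
        refine ⟨fun j => x (some j), hx.1, ?_⟩
        rw [sub_self]
        exact hT.zero_mem
      have h2 := hK' _ hmem
      have h3 : ∀ i, y i * mulv e d' x i = y i * d' (e i none) * x none +
          y i * ∑ j, d' (e i (some j)) * x (some j) := by
        intro i
        unfold mulv
        rw [Fintype.sum_option]
        ring
      rw [Finset.sum_congr rfl fun i _ => h3 i, Finset.sum_add_distrib, ← Finset.sum_mul]
      have h4 := hx.2
      nlinarith
    have h5 : ∑ i, y i * mulv e d x i - ∑ i, y i * mulv e d' x i ≤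
        ∑ _i : M, Fintype.card (Option N) * ε * ‖x‖ := by
      rw [← Finset.sum_sub_distrib]
      apply Finset.sum_le_sum
      intro i _
      have h6 := mulv_dist e hd x i
      have h7 : |y i| ≤ 1 := (norm_le_pi_norm y i).trans hy1.le
      rw [← mul_sub]
      calc y i * (mulv e d x i - mulv e d' x i) ≤ |y i * (mulv e d x i - mulv e d' x i)| :=
            le_abs_self _
        _ = |y i| * |mulv e d x i - mulv e d' x i| := abs_mul _ _
        _ ≤ 1 * (Fintype.card (Option N) * ε * ‖x‖) := by gcongr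
        _ = _ := one_mul _
    rw [Finset.sum_const, nsmul_eq_mul, Finset.card_univ] at h5
    calc ∑ i, y i * mulv e d x i ≤ Fintype.card M * (Fintype.card (Option N) * ε * ‖x‖) := by
          linarith
      _ = _ := by ring

lemma shift (he : ∀ i j i' j', e i j = e i' j' → i = i' ∧ j = j') {C : Set (N → ℝ)}
    {T : Set (M → ℝ)} (hT : IsClosedConvexCone T) {d : ι → ℝ} {ε : ℝ} {y : M → ℝ}
    (hy1 : ‖y‖ = 1) (hyT : ∀ q ∈ T, 0 ≤ ∑ i, y i * q i)
    (hyC : ∀ x ∈ ext C, ∑ i, y i * mulv e d x i ≤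
      Fintype.card M * Fintype.card (Option N) * ε * ‖x‖) {i : M} (hi : |y i| = 1)
    (j : Option N) {ς : ℝ} (hς : ς ∈ ({1, -1} : Finset ℝ)) {h : ℝ}
    (hh : 2 * (Fintype.card M * Fintype.card (Option N) * ε) < h) :
    Function.update d (e i j) (d (e i j) + (-(y i) * ς) * h) ∉
      G e C T j ς (Fintype.card (Option N) * ε) := by
  rintro ⟨x, hx, hxn, hxj, hxd⟩
  obtain ⟨q, hq, hdq⟩ := hT.isClosed.exists_infDist_eq_dist ⟨0, hT.zero_mem⟩
    (mulv e (Function.update d (e i j) (d (e i j) + (-(y i) * ς) * h)) x)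
  rw [hdq] at hxd
  rw [mulv_update e he] at hxd
  set S := (Fintype.card M : ℝ) * Fintype.card (Option N) * ε with hS
  have hεS : 0 ≤ (Fintype.card (Option N) : ℝ) * ε := dist_nonneg.trans hxd
  have hς2 : ς * ς = 1 := by
    simp only [Finset.mem_insert, Finset.mem_singleton] at hς
    rcases hς with rfl | rfl <;> norm_num
  have hy2 : y i * y i = 1 := by
    rw [← abs_mul_abs_self, hi, one_mul]
  -- pairing with y
  set t := (-(y i) * ς) * h with ht
  have h1 : ∑ k, y k * (mulv e d x + Pi.single i ((d (e i j) + t - d (e i j)) * x j) : M → ℝ) k =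
      ∑ k, y k * mulv e d x k - h := by
    simp only [Pi.add_apply, mul_add, Finset.sum_add_distrib]
    have : ∑ k, y k * (Pi.single i ((d (e i j) + t - d (e i j)) * x j) : M → ℝ) k = -h := by
      rw [Finset.sum_eq_single i]
      · rw [Pi.single_eq_same, hxj, ht]
        have : y i * ((d (e i j) + -y i * ς * h - d (e i j)) * ς) = -(y i * y i) * (ς * ς) * h := by
          ring
        rw [this, hy2, hς2]
        ring
      · intro b _ hb
        rw [Pi.single_eq_of_ne hb, mul_zero]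
      · intro hcon
        exact absurd (Finset.mem_univ i) hcon
    rw [this]
    ring
  have h2 : -S ≤ ∑ k, y k * (mulv e d x + Pi.single i ((d (e i j) + t - d (e i j)) * x j) : M → ℝ) k := by
    set v := mulv e d x + Pi.single i ((d (e i j) + t - d (e i j)) * x j) with hv
    have h3 := hyT q hq
    have h4 : ∑ k, y k * q k - ∑ k, y k * v k ≤ ∑ _k : M, Fintype.card (Option N) * ε := by
      rw [← Finset.sum_sub_distrib]
      apply Finset.sum_le_sum
      intro k _
      have h7 : |y k| ≤ 1 := (norm_le_pi_norm y k).trans hy1.le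
      have h8 : |q k - v k| ≤ Fintype.card (Option N) * ε := by
        rw [abs_sub_comm]
        exact (dist_le_pi_dist v q k).trans hxd
      rw [← mul_sub]
      calc y k * (q k - v k) ≤ |y k * (q k - v k)| := le_abs_self _
        _ = |y k| * |q k - v k| := abs_mul _ _
        _ ≤ 1 * (Fintype.card (Option N) * ε) := by gcongr
        _ = _ := one_mul _
    rw [Finset.sum_const, nsmul_eq_mul, Finset.card_univ] at h4
    have : (Fintype.card M : ℝ) * (Fintype.card (Option N) * ε) = S := by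
      rw [hS]
      ring
    linarith
  have h5 := hyC x hx
  have hS0 : 0 ≤ S := by
    have : (Fintype.card M : ℝ) * (Fintype.card (Option N) * ε) = S := by
      rw [hS]
      ring
    rw [← this]
    positivity
  have h6 : S * ‖x‖ ≤ S * 1 := by gcongr
  linarith

/-- The bad event. -/
def Bad (C : Set (N → ℝ)) (T : Set (M → ℝ)) (ε : ℝ) : Set (ι → ℝ) :=
  ⋃ i : M, ⋃ j : Option N, ⋃ ς ∈ ({1, -1} : Finset ℝ), ⋃ τ ∈ ({1, -1} : Finset ℝ),
    {d | d ∈ G e C T j ς (Fintype.card (Option N) * ε) ∧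
      Function.update d (e i j) (d (e i j) +
        τ * (3 * (Fintype.card M * Fintype.card (Option N) * ε))) ∉
          G e C T j ς (Fintype.card (Option N) * ε)}

lemma mem_bad (he : ∀ i j i' j', e i j = e i' j' → i = i' ∧ j = j') {C : Set (N → ℝ)}
    (hC : IsClosedConvexCone C) {T : Set (M → ℝ)} (hT : IsClosedConvexCone T) {d d₁ d₂ : ι → ℝ}
    {ε : ℝ} (hε : 0 < ε) (hd₁ : ∀ k, |d k - d₁ k| ≤ ε) (hd₂ : ∀ k, |d k - d₂ k| ≤ ε)
    (hf₁ : Feas e C T d₁) (hf₂ : ¬ Feas e C T d₂) : d ∈ Bad e C T ε := by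
  obtain ⟨j, ς, hς, hG⟩ := near_feas e hC hT hε.le hd₁ hf₁
  obtain ⟨y, hy1, hyT, hyC⟩ := near_infeas e hC hT hd₂ hf₂
  obtain ⟨i, hi⟩ := exists_coord hy1
  unfold Bad
  refine mem_iUnion.2 ⟨i, mem_iUnion.2 ⟨j, mem_iUnion₂.2 ⟨ς, hς, mem_iUnion₂.2
    ⟨-(y i) * ς, ?_, hG, ?_⟩⟩⟩⟩
  · have h1 : |-(y i) * ς| = 1 := by
      rw [abs_mul, abs_neg, hi, one_mul]
      simp only [Finset.mem_insert, Finset.mem_singleton] at hς
      rcases hς with rfl | rfl <;> norm_num
    rcases abs_eq (zero_le_one' ℝ) |>.1 h1 with h | h <;> simp [h]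
  · apply shift e he hT hy1 hyT hyC hi j hς
    have : (0:ℝ) < Fintype.card M := by
      have : 0 < Fintype.card M := Fintype.card_pos_iff.2 ⟨i⟩
      exact_mod_cast this
    have h2 : (0:ℝ) < Fintype.card (Option N) := by
      have : 0 < Fintype.card (Option N) := Fintype.card_pos_iff.2 ⟨j⟩
      exact_mod_cast this
    have h3 : 0 < (Fintype.card M : ℝ) * Fintype.card (Option N) * ε := by positivity
    linarith

end abstract



section abstract

variable {ι M N : Type} [Fintype ι] [Fintype M] [Fintype N] (e : M → Option N → ι)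
  [DecidableEq ι] [DecidableEq M]

lemma bad_le (he : ∀ i j i' j', e i j = e i' j' → i = i' ∧ j = j') {C : Set (N → ℝ)}
    (hC : IsClosedConvexCone C) {T : Set (M → ℝ)} (hT : IsClosedConvexCone T) (m : ι → ℝ) {σ : ℝ}
    (hσ : 0 < σ) {ε : ℝ} (hε : 0 < ε) :
    law m σ (Bad e C T ε) ≤
      ENNReal.ofReal (12 * ((Fintype.card M : ℝ) * Fintype.card (Option N)) ^ 2 * ε / σ) := by
  classical
  rcases isEmpty_or_nonempty M with hM | hM
  · have : Bad e C T ε = ∅ := by
      unfold Bad
      simp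
    rw [this]
    simp
  have hM0 : (0:ℝ) < Fintype.card M := by
    have : 0 < Fintype.card M := Fintype.card_pos
    exact_mod_cast this
  have hN0 : (0:ℝ) < Fintype.card (Option N) := by
    have : 0 < Fintype.card (Option N) := Fintype.card_pos
    exact_mod_cast this
  set S : ℝ := Fintype.card M * Fintype.card (Option N) * ε with hS
  have hS0 : 0 < S := by positivity
  unfold Bad
  calc law m σ (⋃ i : M, ⋃ j : Option N, ⋃ ς ∈ ({1, -1} : Finset ℝ), ⋃ τ ∈ ({1, -1} : Finset ℝ),
        {d | d ∈ G e C T j ς (Fintype.card (Option N) * ε) ∧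
          Function.update d (e i j) (d (e i j) +
            τ * (3 * (Fintype.card M * Fintype.card (Option N) * ε))) ∉
              G e C T j ς (Fintype.card (Option N) * ε)})
      ≤ ∑ _i : M, ∑ _j : Option N, ∑ _ς ∈ ({1, -1} : Finset ℝ), ∑ _τ ∈ ({1, -1} : Finset ℝ),
          ENNReal.ofReal (3 * S / σ) := by
        refine (measure_iUnion_fintype_le _ _).trans (Finset.sum_le_sum fun i _ => ?_)
        refine (measure_iUnion_fintype_le _ _).trans (Finset.sum_le_sum fun j _ => ?_)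
        refine (measure_biUnion_finset_le _ _).trans (Finset.sum_le_sum fun ς _ => ?_)
        refine (measure_biUnion_finset_le _ _).trans (Finset.sum_le_sum fun τ hτ => ?_)
        have hτ1 : |τ| = 1 := by
          simp only [Finset.mem_insert, Finset.mem_singleton] at hτ
          rcases hτ with rfl | rfl <;> norm_num
        have hτ0 : τ ≠ 0 := by
          intro h
          rw [h] at hτ1
          simp at hτ1
        have h1 := slice m hσ (G_isClosed e hC T j ς (Fintype.card (Option N) * ε)).measurableSet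
          (e i j) (fun d => G_convex e he hC hT d i j ς (Fintype.card (Option N) * ε))
          (h := τ * (3 * S)) (mul_ne_zero hτ0 (by positivity))
        rw [abs_mul, hτ1, one_mul, abs_of_pos (by positivity : 0 < 3 * S)] at h1
        exact h1
    _ = ENNReal.ofReal (12 * ((Fintype.card M : ℝ) * Fintype.card (Option N)) ^ 2 * ε / σ) := by
        have hcard : ({1, -1} : Finset ℝ).card = 2 := by
          rw [Finset.card_insert_of_notMem, Finset.card_singleton]
          norm_num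
        simp only [Finset.sum_const, hcard, Finset.card_univ, nsmul_eq_mul]
        rw [show ((2:ℕ) : ℝ≥0∞) = ENNReal.ofReal 2 by simp,
          show ((Fintype.card M : ℕ) : ℝ≥0∞) = ENNReal.ofReal (Fintype.card M) by simp,
          show ((Fintype.card (Option N) : ℕ) : ℝ≥0∞) = ENNReal.ofReal (Fintype.card (Option N)) by
            rw [ENNReal.ofReal_natCast]]
        rw [← ENNReal.ofReal_mul (by positivity), ← ENNReal.ofReal_mul (by positivity),
          ← ENNReal.ofReal_mul (by positivity), ← ENNReal.ofReal_mul (by positivity)]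
        congr 1
        rw [hS]
        ring

end abstract



/-- positive part of the logarithm -/
noncomputable def lp (x : ℝ≥0∞) : ℝ≥0∞ := (ENNReal.log x).toENNReal

lemma lp_mul_le (x y : ℝ≥0∞) : lp (x * y) ≤ lp x + lp y := by
  unfold lp
  rw [ENNReal.log_mul_add]
  exact EReal.toENNReal_add_le

lemma lp_mono {x y : ℝ≥0∞} (h : x ≤ y) : lp x ≤ lp y :=
  EReal.toENNReal_le_toENNReal (ENNReal.log_monotone h)

lemma lp_ofReal {x : ℝ} (hx : 0 < x) : lp (ENNReal.ofReal x) = ENNReal.ofReal (Real.log x) := by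
  unfold lp
  rw [ENNReal.log_ofReal_of_pos hx, EReal.real_coe_toENNReal]

lemma lp_ofReal_le_sq (x : ℝ) : lp (ENNReal.ofReal x) ≤ ENNReal.ofReal (x ^ 2) := by
  rcases le_or_gt x 0 with hx | hx
  · rw [ENNReal.ofReal_of_nonpos hx]
    simp [lp]
  · rw [lp_ofReal hx]
    apply ENNReal.ofReal_le_ofReal
    have := Real.log_le_sub_one_of_pos hx
    nlinarith [sq_nonneg (x - 1 / 2)]

lemma lp_le_tsum (z : ℝ≥0∞) :
    lp z ≤ ∑' k : ℕ, if (2:ℝ≥0∞) ^ k < z then (1:ℝ≥0∞) else 0 := by
  rcases eq_or_ne z ⊤ with hz | hz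
  · subst hz
    have : (∑' k : ℕ, if (2:ℝ≥0∞) ^ k < ⊤ then (1:ℝ≥0∞) else 0) = ⊤ := by
      have h1 : ∀ k : ℕ, (2:ℝ≥0∞) ^ k < ⊤ := fun k => ENNReal.pow_lt_top (by simp)
      simp only [h1, if_true]
      exact ENNReal.tsum_const_eq_top_of_ne_zero one_ne_zero
    rw [this]
    exact le_top
  · -- finite
    have hex : ∃ K : ℕ, z ≤ 2 ^ K := by
      obtain ⟨K, hK⟩ := exists_nat_gt z.toReal
      refine ⟨K, ?_⟩
      have h1 : (K : ℝ) ≤ 2 ^ K := by exact_mod_cast (Nat.lt_two_pow_self).le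
      rw [← ENNReal.ofReal_toReal hz]
      calc ENNReal.ofReal z.toReal ≤ ENNReal.ofReal (2 ^ K) :=
            ENNReal.ofReal_le_ofReal (hK.le.trans h1)
        _ = 2 ^ K := by
            rw [ENNReal.ofReal_pow (by norm_num)]
            simp
    classical
    set K := Nat.find hex with hKdef
    have hK1 : z ≤ 2 ^ K := Nat.find_spec hex
    have hK2 : ∀ k < K, (2:ℝ≥0∞) ^ k < z := fun k hk => not_le.1 (Nat.find_min hex hk)
    calc lp z ≤ lp (2 ^ K) := lp_mono hK1
      _ ≤ K := by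
          have h2 : (2:ℝ≥0∞) ^ K = ENNReal.ofReal (2 ^ K) := by
            rw [ENNReal.ofReal_pow (by norm_num)]
            simp
          rw [h2, lp_ofReal (by positivity), Real.log_pow, ← ENNReal.ofReal_natCast]
          apply ENNReal.ofReal_le_ofReal
          have : Real.log 2 ≤ 1 := by
            have := Real.log_two_lt_d9
            linarith
          have hK0 : (0:ℝ) ≤ K := by positivity
          nlinarith
      _ = ∑ k ∈ Finset.range K, if (2:ℝ≥0∞) ^ k < z then (1:ℝ≥0∞) else 0 := by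
          rw [Finset.sum_congr rfl fun k hk => if_pos (hK2 k (Finset.mem_range.1 hk))]
          simp
      _ ≤ ∑' k : ℕ, if (2:ℝ≥0∞) ^ k < z then (1:ℝ≥0∞) else 0 := ENNReal.sum_le_tsum _

/-- If `ρ` is small with small probability then the expected positive part of `log (1/ρ)` is
bounded. -/
lemma lintegral_lp_inv_le {Ω : Type} [MeasurableSpace Ω] (P : Measure Ω) [IsProbabilityMeasure P]
    {ρ : Ω → ℝ≥0∞} (hρ : Measurable ρ) {L : ℝ} (hL : 0 < L)
    (hP : ∀ ε : ℝ, 0 < ε → P {ω | ρ ω < ENNReal.ofReal ε} ≤ ENNReal.ofReal (L * ε)) :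
    ∫⁻ ω, lp (ρ ω)⁻¹ ∂P ≤ ENNReal.ofReal (Real.log L) + 2 := by
  have h1 : ∀ ω, lp (ρ ω)⁻¹ ≤ ENNReal.ofReal (Real.log L) +
      ∑' k : ℕ, {ω | ρ ω < ENNReal.ofReal (1 / (L * 2 ^ k))}.indicator (fun _ => (1:ℝ≥0∞)) ω := by
    intro ω
    have hL' : ENNReal.ofReal L ≠ 0 := by simpa using hL
    have e1 : (ρ ω)⁻¹ = ENNReal.ofReal L * (ENNReal.ofReal L * ρ ω)⁻¹ := by
      rw [ENNReal.mul_inv (Or.inl hL') (Or.inl ENNReal.ofReal_ne_top), ← mul_assoc,
        ENNReal.mul_inv_cancel hL' ENNReal.ofReal_ne_top, one_mul]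
    rw [e1]
    refine (lp_mul_le _ _).trans ?_
    rw [lp_ofReal hL]
    gcongr
    refine (lp_le_tsum _).trans ?_
    apply ENNReal.tsum_le_tsum
    intro k
    by_cases hk : (2:ℝ≥0∞) ^ k < (ENNReal.ofReal L * ρ ω)⁻¹
    · rw [if_pos hk, indicator_of_mem]
      change ρ ω < ENNReal.ofReal (1 / (L * 2 ^ k))
      have h2 : ENNReal.ofReal L * ρ ω < (2 ^ k)⁻¹ := by
        rwa [ENNReal.lt_inv_iff_lt_inv]
      have h3 : ENNReal.ofReal (1 / (L * 2 ^ k)) = (ENNReal.ofReal L)⁻¹ * (2 ^ k)⁻¹ := by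
        rw [one_div, ENNReal.ofReal_inv_of_pos (by positivity), ENNReal.ofReal_mul hL.le,
          ENNReal.mul_inv (Or.inl hL') (Or.inl ENNReal.ofReal_ne_top),
          ENNReal.ofReal_pow (by norm_num)]
        simp
      rw [h3]
      by_contra hcon
      push Not at hcon
      have h4 : (2 ^ k : ℝ≥0∞)⁻¹ ≤ ENNReal.ofReal L * ρ ω := by
        calc (2 ^ k : ℝ≥0∞)⁻¹ = ENNReal.ofReal L * ((ENNReal.ofReal L)⁻¹ * (2 ^ k)⁻¹) := by
              rw [← mul_assoc, ENNReal.mul_inv_cancel hL' ENNReal.ofReal_ne_top, one_mul]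
          _ ≤ ENNReal.ofReal L * ρ ω := by gcongr
      exact absurd h2 (not_lt.2 h4)
    · rw [if_neg hk]
      exact zero_le
  calc ∫⁻ ω, lp (ρ ω)⁻¹ ∂P ≤ ∫⁻ ω, (ENNReal.ofReal (Real.log L) +
      ∑' k : ℕ, {ω | ρ ω < ENNReal.ofReal (1 / (L * 2 ^ k))}.indicator
        (fun _ => (1:ℝ≥0∞)) ω) ∂P := lintegral_mono h1
    _ = ENNReal.ofReal (Real.log L) + ∑' k : ℕ, P {ω | ρ ω < ENNReal.ofReal (1 / (L * 2 ^ k))} := by
        have hm : ∀ k : ℕ, MeasurableSet {ω | ρ ω < ENNReal.ofReal (1 / (L * 2 ^ k))} := fun k =>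
          measurableSet_lt hρ measurable_const
        rw [lintegral_add_left measurable_const, lintegral_const, measure_univ, mul_one,
          lintegral_tsum fun k => (measurable_const.indicator (hm k)).aemeasurable]
        congr 1
        apply tsum_congr
        intro k
        rw [lintegral_indicator_const (hm k), one_mul]
    _ ≤ ENNReal.ofReal (Real.log L) + ∑' k : ℕ, (2⁻¹ : ℝ≥0∞) ^ k := by
        gcongr with k
        refine (hP _ (by positivity)).trans ?_
        have : L * (1 / (L * 2 ^ k)) = (2⁻¹ : ℝ) ^ k := by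
          field_simp
          rw [← mul_pow]
          norm_num
        rw [this, ENNReal.ofReal_pow (by norm_num), ENNReal.ofReal_inv_of_pos (by norm_num)]
        simp
    _ = ENNReal.ofReal (Real.log L) + 2 := by
        rw [ENNReal.tsum_geometric, ENNReal.one_sub_inv_two, inv_inv]

lemma law_sq {ι : Type} [Fintype ι] (m : ι → ℝ) {σ : ℝ} (k : ι) :
    ∫⁻ d, ENNReal.ofReal (d k ^ 2) ∂law m σ = ENNReal.ofReal (m k ^ 2 + σ ^ 2) := by
  have h1 : MeasurePreserving (Function.eval k) (law m σ)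
      (gaussianReal (m k) (Real.toNNReal (σ ^ 2))) := measurePreserving_eval _ k
  have h2 : ∫⁻ d, ENNReal.ofReal (d k ^ 2) ∂law m σ =
      ∫⁻ x, ENNReal.ofReal (x ^ 2) ∂gaussianReal (m k) (Real.toNNReal (σ ^ 2)) := by
    rw [← h1.map_eq, lintegral_map (by fun_prop) (measurable_pi_apply k)]
  rw [h2]
  have hL2 : MemLp (fun x : ℝ => x) 2 (gaussianReal (m k) (Real.toNNReal (σ ^ 2))) :=
    memLp_id_gaussianReal 2
  rw [← ofReal_integral_eq_lintegral_ofReal hL2.integrable_sq
    (Eventually.of_forall fun x => sq_nonneg x)]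
  congr 1
  have hv := variance_fun_id_gaussianReal (μ := m k) (v := Real.toNNReal (σ ^ 2))
  rw [variance_eq_sub hL2, integral_id_gaussianReal] at hv
  rw [Real.coe_toNNReal _ (sq_nonneg σ)] at hv
  simp only [Pi.pow_apply] at hv
  linarith



section frob

variable {m n : ℕ}

lemma frob_eq_norm (d : Data m n) : frob d = ‖(WithLp.toLp 2 d : EuclideanSpace ℝ (Idx m n))‖ := by
  rw [EuclideanSpace.norm_eq]
  unfold frob
  congr 1
  apply Finset.sum_congr rfl
  intro k _
  simp

lemma frob_nonneg (d : Data m n) : 0 ≤ frob d := Real.sqrt_nonneg _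

lemma frob_sq (d : Data m n) : frob d ^ 2 = ∑ k, d k ^ 2 := Real.sq_sqrt (by positivity)

lemma frob_add_le (d d' : Data m n) : frob (d + d') ≤ frob d + frob d' := by
  rw [frob_eq_norm, frob_eq_norm, frob_eq_norm]
  exact norm_add_le _ _

lemma frob_neg (d : Data m n) : frob (-d) = frob d := by
  unfold frob
  simp

lemma abs_le_frob (d : Data m n) (k : Idx m n) : |d k| ≤ frob d := by
  unfold frob
  rw [← Real.sqrt_sq_eq_abs]
  apply Real.sqrt_le_sqrt
  exact Finset.single_le_sum (f := fun k => d k ^ 2) (fun i _ => sq_nonneg _) (Finset.mem_univ k)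

lemma frob_le (d : Data m n) : frob d ≤ Fintype.card (Idx m n) * ‖d‖ := by
  unfold frob
  rw [Real.sqrt_le_left (by positivity)]
  have h1 : ∀ k ∈ Finset.univ, d k ^ 2 ≤ ‖d‖ ^ 2 := by
    intro k _
    have := norm_le_pi_norm d k
    rw [Real.norm_eq_abs] at this
    rw [← sq_abs]
    gcongr
  have h2 := Finset.sum_le_sum h1
  rw [Finset.sum_const, nsmul_eq_mul, Finset.card_univ] at h2
  refine h2.trans ?_
  rw [mul_pow]
  have h3 : (Fintype.card (Idx m n) : ℝ) ≤ (Fintype.card (Idx m n) : ℝ) ^ 2 := by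
    have : Fintype.card (Idx m n) ≤ Fintype.card (Idx m n) ^ 2 := Nat.le_self_pow (by norm_num) _
    exact_mod_cast this
  gcongr

lemma frob_continuous : Continuous (frob : Data m n → ℝ) := by
  unfold frob
  fun_prop

end frob

section rho

variable {m n : ℕ} {C₁ : Set (Fin m → ℝ)} {C₂ : Set (Fin n → ℝ)}

lemma Stable.shift {d d' : Data m n} {δ : ℝ} (h : Stable C₁ C₂ d δ) (hδ : frob (d' - d) ≤ δ) :
    Stable C₁ C₂ d' (δ - frob (d' - d)) := by
  intro e he
  have h1 : d' + e = d + ((d' - d) + e) := by abel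
  have h2 : d' = d + (d' - d) := by abel
  have h3 := h ((d' - d) + e) ((frob_add_le _ _).trans (by linarith))
  have h4 := h (d' - d) hδ
  rw [h1]
  rw [← h2] at h4
  exact ⟨h3.1.trans h4.1.symm, h3.2.trans h4.2.symm⟩

lemma rho_le_add (d d' : Data m n) :
    rho C₁ C₂ d ≤ rho C₁ C₂ d' + ENNReal.ofReal (frob (d' - d)) := by
  unfold rho
  apply iSup₂_le
  intro δ hδ
  rcases le_or_gt (frob (d' - d)) δ with h | h
  · have h1 := hδ.shift h
    have h2 : (0:ℝ) ≤ δ - frob (d' - d) := by linarith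
    set δ' : ℝ≥0 := ⟨δ - frob (d' - d), h2⟩ with hδ'
    have h3 : (δ' : ℝ≥0∞) ≤ ⨆ (δ : ℝ≥0) (_ : Stable C₁ C₂ d' δ), (δ : ℝ≥0∞) :=
      le_iSup₂_of_le δ' h1 le_rfl
    calc (δ : ℝ≥0∞) = δ' + ENNReal.ofReal (frob (d' - d)) := by
          have e1 : (δ' : ℝ≥0∞) = ENNReal.ofReal (δ - frob (d' - d)) := by
            rw [ENNReal.ofReal_eq_coe_nnreal h2]
            rfl
          rw [e1, ← ENNReal.ofReal_add h2 (frob_nonneg _), sub_add_cancel,
            ENNReal.ofReal_coe_nnreal]
      _ ≤ _ := by gcongr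
  · calc (δ : ℝ≥0∞) = ENNReal.ofReal δ := (ENNReal.ofReal_coe_nnreal).symm
      _ ≤ ENNReal.ofReal (frob (d' - d)) := ENNReal.ofReal_le_ofReal h.le
      _ ≤ _ := le_add_self

lemma rho_continuous : Continuous (rho C₁ C₂ : Data m n → ℝ≥0∞) := by
  apply continuous_of_le_add_edist (Fintype.card (Idx m n)) (ENNReal.natCast_ne_top _)
  intro d d'
  refine (rho_le_add d d').trans ?_
  gcongr
  have h1 := frob_le (d' - d)
  calc ENNReal.ofReal (frob (d' - d)) ≤ ENNReal.ofReal (Fintype.card (Idx m n) * ‖d' - d‖) :=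
        ENNReal.ofReal_le_ofReal h1
    _ = Fintype.card (Idx m n) * edist d d' := by
        rw [ENNReal.ofReal_mul (by positivity), ENNReal.ofReal_natCast, edist_comm,
          edist_dist, dist_eq_norm]

lemma condNumber_measurable : Measurable (condNumber C₁ C₂ : Data m n → ℝ≥0∞) := by
  unfold condNumber
  have h1 : Measurable (rho C₁ C₂ : Data m n → ℝ≥0∞) := rho_continuous.measurable
  apply Measurable.ite
  · exact h1 (measurableSet_singleton 0)
  · exact measurable_const
  · exact (ENNReal.measurable_ofReal.comp frob_continuous.measurable).div h1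

/-- entries of the primal matrix -/
def e₁ (i : Fin m) (j : Option (Fin n)) : Idx m n := j.elim (Sum.inr (Sum.inl i)) fun j => Sum.inl (i, j)

/-- entries of the dual matrix -/
def e₂ (j : Fin n) (i : Option (Fin m)) : Idx m n := i.elim (Sum.inr (Sum.inr j)) fun i => Sum.inl (i, j)

lemma e₁_inj (i : Fin m) (j : Option (Fin n)) (i' : Fin m) (j' : Option (Fin n))
    (h : e₁ i j = e₁ i' j') : i = i' ∧ j = j' := by
  cases j <;> cases j' <;> simp_all [e₁]

lemma e₂_inj (i : Fin n) (j : Option (Fin m)) (i' : Fin n) (j' : Option (Fin m))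
    (h : e₂ i j = e₂ i' j') : i = i' ∧ j = j' := by
  cases j <;> cases j' <;> simp_all [e₂]

lemma primal_iff (d : Data m n) : PrimalFeasible C₁ C₂ d ↔ Feas e₁ C₂ C₁ d := Iff.rfl

lemma dual_iff (d : Data m n) :
    DualFeasible C₁ C₂ d ↔ Feas e₂ (dualCone C₁) {v | -v ∈ dualCone C₂} d := by
  unfold DualFeasible Feas
  apply exists_congr
  intro y
  apply and_congr_right
  intro _
  have : (fun j => d.c j - ∑ i, d.A i j * y i) =
      -(fun j => ∑ i, d (e₂ j (some i)) * y i - d (e₂ j none)) := by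
    funext j
    simp only [Pi.neg_apply, neg_sub]
    rfl
  rw [this]
  rfl

lemma dualCone_isClosedConvexCone {k : ℕ} (C : Set (Fin k → ℝ)) :
    IsClosedConvexCone (dualCone C) := by
  refine ⟨?_, ?_, ?_, ?_⟩
  · have : dualCone C = ⋂ v ∈ C, {u : Fin k → ℝ | 0 ≤ ∑ i, u i * v i} := by
      ext u
      simp [dualCone]
    rw [this]
    exact isClosed_biInter fun v _ => isClosed_le continuous_const (by fun_prop)
  · intro u hu w hw a b ha hb _ v hv
    have h1 := hu v hv
    have h2 := hw v hv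
    have : ∑ i, (a • u + b • w) i * v i = a * ∑ i, u i * v i + b * ∑ i, w i * v i := by
      rw [Finset.mul_sum, Finset.mul_sum, ← Finset.sum_add_distrib]
      apply Finset.sum_congr rfl
      intro i _
      simp only [Pi.add_apply, Pi.smul_apply, smul_eq_mul]
      ring
    rw [this]
    positivity
  · intro v _
    simp
  · intro t ht u hu v hv
    have h1 := hu v hv
    have : ∑ i, (t • u) i * v i = t * ∑ i, u i * v i := by
      rw [Finset.mul_sum]
      apply Finset.sum_congr rfl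
      intro i _
      simp only [Pi.smul_apply, smul_eq_mul]
      ring
    rw [this]
    positivity

lemma neg_isClosedConvexCone {k : Type} {C : Set (k → ℝ)} (h : IsClosedConvexCone C) :
    IsClosedConvexCone {v | -v ∈ C} := by
  refine ⟨h.isClosed.preimage continuous_neg, ?_, ?_, ?_⟩
  · intro u hu w hw a b ha hb hab
    have := h.convex hu hw ha hb hab
    change -(a • u + b • w) ∈ C
    convert this using 1
    rw [smul_neg, smul_neg, neg_add]
  · change -(0 : k → ℝ) ∈ C
    rw [neg_zero]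
    exact h.zero_mem
  · intro t ht u hu
    have := h.smul_mem t ht _ hu
    change -(t • u) ∈ C
    rwa [smul_neg] at this

lemma rho_lt_mem (h₁ : IsClosedConvexCone C₁) (h₂ : IsClosedConvexCone C₂) {d : Data m n} {ε : ℝ}
    (hε : 0 < ε) (h : rho C₁ C₂ d < ENNReal.ofReal ε) :
    d ∈ Bad e₁ C₂ C₁ ε ∪ Bad e₂ (dualCone C₁) {v | -v ∈ dualCone C₂} ε := by
  have hns : ¬ Stable C₁ C₂ d ε := by
    intro hs
    have : ENNReal.ofReal ε ≤ rho C₁ C₂ d := by
      unfold rho
      rw [ENNReal.ofReal_eq_coe_nnreal hε.le]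
      exact le_iSup₂_of_le (NNReal.mk ε hε.le) hs le_rfl
    exact absurd h (not_lt.2 this)
  unfold Stable at hns
  push Not at hns
  obtain ⟨e, he, hst⟩ := hns
  have hd : ∀ k, |d k - d k| ≤ ε := fun k => by simp [hε.le]
  have hde : ∀ k, |d k - (d + e) k| ≤ ε := by
    intro k
    have : d k - (d + e) k = -(e k) := by
      rw [Pi.add_apply]
      ring
    rw [this, abs_neg]
    exact (abs_le_frob e k).trans he
  by_cases hP : PrimalFeasible C₁ C₂ (d + e) ↔ PrimalFeasible C₁ C₂ d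
  · right
    have hD := hst hP
    have hc1 := dualCone_isClosedConvexCone C₁
    have hc2 := neg_isClosedConvexCone (dualCone_isClosedConvexCone C₂)
    rw [dual_iff, dual_iff] at hD
    by_cases hf : Feas e₂ (dualCone C₁) {v | -v ∈ dualCone C₂} d
    · have : ¬ Feas e₂ (dualCone C₁) {v | -v ∈ dualCone C₂} (d + e) := by tauto
      exact mem_bad e₂ e₂_inj hc1 hc2 hε hd hde hf this
    · have : Feas e₂ (dualCone C₁) {v | -v ∈ dualCone C₂} (d + e) := by tauto
      exact mem_bad e₂ e₂_inj hc1 hc2 hε hde hd this hf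
  · left
    rw [primal_iff, primal_iff] at hP
    by_cases hf : Feas e₁ C₂ C₁ d
    · have : ¬ Feas e₁ C₂ C₁ (d + e) := by tauto
      exact mem_bad e₁ e₁_inj h₂ h₁ hε hd hde hf this
    · have : Feas e₁ C₂ C₁ (d + e) := by tauto
      exact mem_bad e₁ e₁_inj h₂ h₁ hε hde hd this hf

lemma rho_tail (h₁ : IsClosedConvexCone C₁) (h₂ : IsClosedConvexCone C₂) (hm : 1 ≤ m) (hn : 1 ≤ n)
    (d₀ : Data m n) {σ : ℝ} (hσ : 0 < σ) {ε : ℝ} (hε : 0 < ε) :
    law d₀ σ {d | rho C₁ C₂ d < ENNReal.ofReal ε} ≤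
      ENNReal.ofReal ((96 * ((m:ℝ) * n) ^ 2 / σ) * ε) := by
  have hm' : (1:ℝ) ≤ m := by exact_mod_cast hm
  have hn' : (1:ℝ) ≤ n := by exact_mod_cast hn
  calc law d₀ σ {d | rho C₁ C₂ d < ENNReal.ofReal ε}
      ≤ law d₀ σ (Bad e₁ C₂ C₁ ε ∪ Bad e₂ (dualCone C₁) {v | -v ∈ dualCone C₂} ε) :=
        measure_mono fun d hd => rho_lt_mem h₁ h₂ hε hd
    _ ≤ law d₀ σ (Bad e₁ C₂ C₁ ε) + law d₀ σ (Bad e₂ (dualCone C₁) {v | -v ∈ dualCone C₂} ε) :=
        measure_union_le _ _
    _ ≤ ENNReal.ofReal (12 * ((m : ℝ) * (n + 1)) ^ 2 * ε / σ) +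
        ENNReal.ofReal (12 * ((n : ℝ) * (m + 1)) ^ 2 * ε / σ) := by
        have b1 := bad_le e₁ e₁_inj h₂ h₁ d₀ hσ hε
        have b2 := bad_le e₂ e₂_inj (dualCone_isClosedConvexCone C₁)
          (neg_isClosedConvexCone (dualCone_isClosedConvexCone C₂)) d₀ hσ hε
        simp only [Fintype.card_fin, Fintype.card_option] at b1 b2
        push_cast at b1 b2
        exact add_le_add b1 b2
    _ ≤ ENNReal.ofReal ((96 * ((m:ℝ) * n) ^ 2 / σ) * ε) := by
        rw [← ENNReal.ofReal_add (by positivity) (by positivity)]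
        apply ENNReal.ofReal_le_ofReal
        rw [← add_div, div_mul_eq_mul_div]
        apply div_le_div_of_nonneg_right _ hσ.le
        have k1 : (m : ℝ) * (n + 1) ≤ 2 * (m * n) := by nlinarith
        have k2 : (n : ℝ) * (m + 1) ≤ 2 * (m * n) := by nlinarith
        have k3 : ((m : ℝ) * (n + 1)) ^ 2 ≤ (2 * (m * n)) ^ 2 := by gcongr
        have k4 : ((n : ℝ) * (m + 1)) ^ 2 ≤ (2 * (m * n)) ^ 2 := by gcongr
        calc 12 * ((m : ℝ) * (n + 1)) ^ 2 * ε + 12 * ((n : ℝ) * (m + 1)) ^ 2 * ε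
            ≤ 12 * (2 * ((m:ℝ) * n)) ^ 2 * ε + 12 * (2 * ((m:ℝ) * n)) ^ 2 * ε := by gcongr
          _ = 96 * ((m:ℝ) * n) ^ 2 * ε := by ring

end rho

section final

variable {m n : ℕ} {C₁ : Set (Fin m → ℝ)} {C₂ : Set (Fin n → ℝ)}

lemma lp_cond_le (d : Data m n) {L : ℝ} (hL : 0 < L) :
    lp (condNumber C₁ C₂ d) ≤ ENNReal.ofReal ((frob d / L) ^ 2) + ENNReal.ofReal (Real.log L) +
      lp (rho C₁ C₂ d)⁻¹ := by
  unfold condNumber
  by_cases h : rho C₁ C₂ d = 0
  · rw [if_pos h, h, ENNReal.inv_zero]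
    exact le_add_self
  · rw [if_neg h, div_eq_mul_inv]
    refine (lp_mul_le _ _).trans ?_
    gcongr
    have e : ENNReal.ofReal (frob d) = ENNReal.ofReal (frob d / L) * ENNReal.ofReal L := by
      rw [← ENNReal.ofReal_mul (div_nonneg (frob_nonneg d) hL.le)]
      congr 1
      field_simp
    rw [e]
    refine (lp_mul_le _ _).trans ?_
    rw [lp_ofReal hL]
    gcongr
    exact lp_ofReal_le_sq _

lemma lintegral_frob (d₀ : Data m n) (hd₀ : frob d₀ ≤ 1) (hm : 1 ≤ m) (hn : 1 ≤ n) {σ : ℝ}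
    (hσ : 0 < σ) (hσ1 : σ ≤ 1) :
    ∫⁻ d, ENNReal.ofReal ((frob d / (2 * (m * n))) ^ 2) ∂law d₀ σ ≤ 1 := by
  have hm' : (1:ℝ) ≤ m := by exact_mod_cast hm
  have hn' : (1:ℝ) ≤ n := by exact_mod_cast hn
  have hmn : (0:ℝ) < 2 * (m * n) := by positivity
  have h1 : ∀ d : Data m n, ENNReal.ofReal ((frob d / (2 * (m * n))) ^ 2) =
      ENNReal.ofReal (((2 * ((m:ℝ) * n)) ^ 2)⁻¹) * ∑ k, ENNReal.ofReal (d k ^ 2) := by
    intro d
    rw [← ENNReal.ofReal_sum_of_nonneg fun k _ => sq_nonneg _, ← ENNReal.ofReal_mul (by positivity),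
      ← frob_sq, div_pow]
    congr 1
    field_simp
  simp only [h1]
  rw [lintegral_const_mul _ (by fun_prop), lintegral_finsetSum _ (fun k _ => by fun_prop)]
  simp only [law_sq]
  rw [← ENNReal.ofReal_sum_of_nonneg fun k _ => by positivity, ← ENNReal.ofReal_mul (by positivity)]
  rw [← ENNReal.ofReal_one]
  apply ENNReal.ofReal_le_ofReal
  rw [Finset.sum_add_distrib, ← frob_sq, Finset.sum_const, nsmul_eq_mul, Finset.card_univ]
  have hcard : (Fintype.card (Idx m n) : ℝ) = m * n + (m + n) := by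
    simp
  rw [hcard]
  have h2 : frob d₀ ^ 2 ≤ 1 := pow_le_one₀ (frob_nonneg _) hd₀
  have h3 : σ ^ 2 ≤ 1 := pow_le_one₀ hσ.le hσ1
  have h4 : ((m:ℝ) * n + (m + n)) * σ ^ 2 ≤ (m * n + (m + n)) * 1 := by gcongr
  rw [inv_mul_le_iff₀ (by positivity), mul_one]
  have h5 : (1:ℝ) ≤ m * n := by nlinarith
  have h6 : (m:ℝ) + n ≤ m * n + 1 := by nlinarith
  have h7 : (m:ℝ) * n ≤ (m * n) ^ 2 := by nlinarith
  nlinarith

lemma pos_part_le (h₁ : IsClosedConvexCone C₁) (h₂ : IsClosedConvexCone C₂) (hm : 1 ≤ m)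
    (hn : 1 ≤ n) (d₀ : Data m n) (hd₀ : frob d₀ ≤ 1) {σ : ℝ} (hσ : 0 < σ) (hσ1 : σ ≤ 1) :
    ∫⁻ d, lp (condNumber C₁ C₂ d) ∂law d₀ σ ≤
      ENNReal.ofReal (9 * (1 + Real.log (m * n / σ))) := by
  have hm' : (1:ℝ) ≤ m := by exact_mod_cast hm
  have hn' : (1:ℝ) ≤ n := by exact_mod_cast hn
  have h5 : (1:ℝ) ≤ m * n := by nlinarith
  have hmn : (0:ℝ) < 2 * (m * n) := by positivity
  have hrm : Measurable (rho C₁ C₂ : Data m n → ℝ≥0∞) := rho_continuous.measurable
  have hL : 0 < 96 * ((m:ℝ) * n) ^ 2 / σ := by positivity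
  have hfm := (frob_continuous (m := m) (n := n)).measurable
  have hlogσ : Real.log σ ≤ 0 := Real.log_nonpos hσ.le hσ1
  have hlogq : 0 ≤ Real.log ((m:ℝ) * n) := Real.log_nonneg h5
  calc ∫⁻ d, lp (condNumber C₁ C₂ d) ∂law d₀ σ
      ≤ ∫⁻ d, (ENNReal.ofReal ((frob d / (2 * (m * n))) ^ 2) +
          ENNReal.ofReal (Real.log (2 * (m * n))) + lp (rho C₁ C₂ d)⁻¹) ∂law d₀ σ :=
        lintegral_mono fun d => lp_cond_le d hmn
    _ = ∫⁻ d, ENNReal.ofReal ((frob d / (2 * (m * n))) ^ 2) ∂law d₀ σ +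
          ENNReal.ofReal (Real.log (2 * (m * n))) + ∫⁻ d, lp (rho C₁ C₂ d)⁻¹ ∂law d₀ σ := by
        rw [lintegral_add_left (by fun_prop), lintegral_add_left (by fun_prop), lintegral_const,
          measure_univ, mul_one]
    _ ≤ 1 + ENNReal.ofReal (Real.log (2 * (m * n))) +
          (ENNReal.ofReal (Real.log (96 * ((m:ℝ) * n) ^ 2 / σ)) + 2) := by
        gcongr
        · exact lintegral_frob d₀ hd₀ hm hn hσ hσ1
        · exact lintegral_lp_inv_le _ hrm hL fun ε hε => rho_tail h₁ h₂ hm hn d₀ hσ hε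
    _ ≤ ENNReal.ofReal (9 * (1 + Real.log (m * n / σ))) := by
        have e1 : (1:ℝ≥0∞) = ENNReal.ofReal 1 := by simp
        have e2 : (2:ℝ≥0∞) = ENNReal.ofReal 2 := by simp
        have g1 : Real.log (2 * (m * n)) = Real.log 2 + Real.log (m * n) :=
          Real.log_mul (by norm_num) (by positivity)
        have g2 : Real.log (96 * ((m:ℝ) * n) ^ 2 / σ) =
            Real.log 96 + 2 * Real.log (m * n) - Real.log σ := by
          rw [Real.log_div (by positivity) hσ.ne', Real.log_mul (by norm_num) (by positivity),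
            Real.log_pow]
          push_cast
          ring
        have g3 : Real.log ((m:ℝ) * n / σ) = Real.log (m * n) - Real.log σ :=
          Real.log_div (by positivity) hσ.ne'
        have l2 : Real.log 2 ≤ 0.7 := by
          have := Real.log_two_lt_d9
          linarith
        have l2' : 0 ≤ Real.log 2 := Real.log_nonneg (by norm_num)
        have l96 : Real.log 96 ≤ 4.9 := by
          have : Real.log 96 ≤ Real.log (2 ^ 7) := Real.log_le_log (by norm_num) (by norm_num)
          rw [Real.log_pow] at this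
          push_cast at this
          linarith
        have l96' : 0 ≤ Real.log 96 := Real.log_nonneg (by norm_num)
        rw [e1, e2, ← ENNReal.ofReal_add (by norm_num) (by rw [g1]; positivity),
          ← ENNReal.ofReal_add (by rw [g2]; linarith) (by norm_num),
          ← ENNReal.ofReal_add (by rw [g1]; positivity) (by rw [g2]; linarith)]
        apply ENNReal.ofReal_le_ofReal
        rw [g1, g2, g3]
        linarith

/-- **Q1, affirmative answer.** There is an absolute constant `K` such that for all `m, n ≥ 1`,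
all closed convex cones `C₁ ⊆ ℝ^m`, `C₂ ⊆ ℝ^n`, all data `d₀` with `‖d₀‖_F ≤ 1` and all
`0 < σ ≤ 1`, the condition number of the `σ`-Gaussian perturbation of `d₀` is a random variable
whose logarithm has integrable positive part, and `E[log C] ≤ K (1 + log (m n / σ))`. -/
theorem result : ∃ K : ℝ, ∀ m n : ℕ, 1 ≤ m → 1 ≤ n →
    ∀ (C₁ : Set (Fin m → ℝ)) (C₂ : Set (Fin n → ℝ)), IsClosedConvexCone C₁ →
    IsClosedConvexCone C₂ → ∀ d₀ : Data m n, frob d₀ ≤ 1 → ∀ σ : ℝ, 0 < σ → σ ≤ 1 →
    Measurable (condNumber C₁ C₂) ∧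
    ∫⁻ d, (ENNReal.log (condNumber C₁ C₂ d)).toENNReal ∂law d₀ σ < ⊤ ∧
    expectation (law d₀ σ) (fun d => ENNReal.log (condNumber C₁ C₂ d)) ≤
      ((K * (1 + Real.log (m * n / σ)) : ℝ) : EReal) := by
  refine ⟨9, fun m n hm hn C₁ C₂ h₁ h₂ d₀ hd₀ σ hσ hσ1 => ?_⟩
  have hm' : (1:ℝ) ≤ m := by exact_mod_cast hm
  have hn' : (1:ℝ) ≤ n := by exact_mod_cast hn
  have h5 : (1:ℝ) ≤ m * n := by nlinarith
  have key := pos_part_le h₁ h₂ hm hn d₀ hd₀ hσ hσ1
  have hlog : 0 ≤ Real.log ((m:ℝ) * n / σ) := by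
    apply Real.log_nonneg
    rw [le_div_iff₀ hσ]
    nlinarith
  refine ⟨condNumber_measurable, key.trans_lt ENNReal.ofReal_lt_top, ?_⟩
  unfold expectation
  calc ((∫⁻ ω, (ENNReal.log (condNumber C₁ C₂ ω)).toENNReal ∂law d₀ σ : ℝ≥0∞) : EReal) -
        ((∫⁻ ω, (-ENNReal.log (condNumber C₁ C₂ ω)).toENNReal ∂law d₀ σ : ℝ≥0∞) : EReal)
      ≤ ((∫⁻ ω, (ENNReal.log (condNumber C₁ C₂ ω)).toENNReal ∂law d₀ σ : ℝ≥0∞) : EReal) - 0 := by
        apply EReal.sub_le_sub le_rfl
        exact EReal.coe_ennreal_nonneg _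
    _ = ((∫⁻ ω, (ENNReal.log (condNumber C₁ C₂ ω)).toENNReal ∂law d₀ σ : ℝ≥0∞) : EReal) := by
        rw [sub_zero]
    _ ≤ ((ENNReal.ofReal (9 * (1 + Real.log (m * n / σ))) : ℝ≥0∞) : EReal) :=
        EReal.coe_ennreal_le_coe_ennreal_iff.2 key
    _ = ((9 * (1 + Real.log (m * n / σ)) : ℝ) : EReal) := by
        rw [EReal.coe_ennreal_ofReal, max_eq_left (by positivity)]

end final

end Pool.Agent.Results.MP_722786_an.SmoothedCondition
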